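import Pool.Agent.N295.SR.Pot

/-!
# Spheres of revolution: growth from a small box to an annulus (helper295)
-/

set_option autoImplicit false

open MeasureTheory Set Real Filter Topology

namespace Pool.Agent.N295.SR

open Pool.Agent.N273.LT (Alt sc Bd sc_le)

theorem bd_of_le {u : ℝ → ℝ} (h : ∀ a b : ℝ, a ≤ b → ∃ B : ℝ, ∀ n : ℕ, Alt u (Ioo a b) n →
    (n : ℝ) ≤ B) : Bd u := by
  intro a b
  rcases le_or_gt a b with hab | hab
  · obtain ⟨B, hB⟩ := h a b hab
    exact ⟨⌊B⌋₊, fun n hn => Nat.le_floor (hB n hn)⟩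
  · refine ⟨0, fun n hn => ?_⟩
    obtain ⟨t, -, ht, -⟩ := hn
    have := ht 0 (Nat.zero_le _)
    exact absurd (this.1.trans this.2) (by linarith [hab] : ¬ a < b)

theorem zz_le {φ : ℝ → ℝ → ℝ} {Z w : ℝ} (h : Cnt φ Z) (hZ : 0 ≤ Z) (hw : 0 ≤ w) (X Y : ℝ) :
    zz φ w X Y ≤ 4 * w * (1 + w) * Z := by
  have b1 : ∀ x, Bd (fun t => φ x t) := fun x => bd_of_le fun a b hab => ⟨_, fun n hn =>
    h.a x a b n hab hn⟩
  have b2 : ∀ y, Bd (fun t => φ t y) := fun y => bd_of_le fun a b hab => ⟨_, fun n hn =>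
    h.b y n (hn.subset (subset_univ _))⟩
  have e1 : ∀ x, (n1 φ w x Y : ℝ) ≤ Z * (1 + 2 * w) := by
    intro x
    refine sc_le (b1 x) (by positivity) fun n hn => ?_
    have := h.a x (Y + -w) (Y + w) n (by linarith) hn
    refine this.trans (le_of_eq ?_)
    ring
  have e2 : ∀ y, (n2 φ w X y : ℝ) ≤ Z := fun y =>
    sc_le (b2 y) hZ fun n hn => h.b y n (hn.subset (subset_univ _))
  have i1 : ∫ x in (X - w)..(X + w), (n1 φ w x Y : ℝ) ≤ Z * (1 + 2 * w) * |X + w - (X - w)| := by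
    refine (le_abs_self _).trans ?_
    rw [← Real.norm_eq_abs]
    refine intervalIntegral.norm_integral_le_of_norm_le_const fun x _ => ?_
    rw [Real.norm_of_nonneg (Nat.cast_nonneg _)]
    exact e1 x
  have i2 : ∫ y in (Y - w)..(Y + w), (n2 φ w X y : ℝ) ≤ Z * |Y + w - (Y - w)| := by
    refine (le_abs_self _).trans ?_
    rw [← Real.norm_eq_abs]
    refine intervalIntegral.norm_integral_le_of_norm_le_const fun x _ => ?_
    rw [Real.norm_of_nonneg (Nat.cast_nonneg _)]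
    exact e2 x
  have h1 : |X + w - (X - w)| = 2 * w := by
    rw [abs_of_nonneg (by linarith)]
    ring
  have h2 : |Y + w - (Y - w)| = 2 * w := by
    rw [abs_of_nonneg (by linarith)]
    ring
  rw [h1] at i1
  rw [h2] at i2
  unfold zz
  calc _ ≤ Z * (1 + 2 * w) * (2 * w) + Z * (2 * w) := add_le_add i1 i2
    _ = _ := by ring

/-- Growth from a small box to an annulus and the cap behind it. -/
theorem ANN (hch : S_CHAIN) (hcap : S_CAP) : S_ANN := by
  intro Q₀ ℓ β hQ hℓ hβ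
  obtain ⟨C, hC, H⟩ := hch
  have hπ := Real.pi_pos
  have hπ4 := Real.pi_le_four
  set h : ℝ := min β (min 1 (1 / (10 * (Q₀ + 1)))) with hh
  have h0 : 0 < h := lt_min hβ (lt_min one_pos (by positivity))
  have hhβ : h ≤ β := min_le_left _ _
  have hh1 : h ≤ 1 := (min_le_right _ _).trans (min_le_left _ _)
  have hhQ : h * (10 * (Q₀ + 1)) ≤ 1 := by
    have := (min_le_right β _).trans (min_le_right 1 (1 / (10 * (Q₀ + 1))))
    rwa [← hh, le_div_iff₀ (by positivity)] at this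
  have hhQ2 : h ^ 2 * Q₀ ≤ 1 / 100 := by
    have e1 : (h * (10 * (Q₀ + 1))) ^ 2 ≤ 1 := pow_le_one₀ (by positivity) hhQ
    have e2 : (h * (10 * (Q₀ + 1))) ^ 2 = 100 * (h ^ 2 * (Q₀ + 1) ^ 2) := by ring
    have e3 : h ^ 2 * Q₀ ≤ h ^ 2 * (Q₀ + 1) ^ 2 :=
      mul_le_mul_of_nonneg_left (by nlinarith) (sq_nonneg _)
    linarith
  set N : ℕ := ⌈(ℓ + 2 * π + 1) / h⌉₊ with hN
  have hN0 : (0 : ℝ) ≤ N := Nat.cast_nonneg _
  have hN1 : ℓ + 2 * π + 1 ≤ N * h := by
    have := Nat.le_ceil ((ℓ + 2 * π + 1) / h)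
    rwa [div_le_iff₀ h0] at this
  have hN2 : N * h ≤ ℓ + 2 * π + 2 := by
    have := Nat.ceil_lt_add_one (show 0 ≤ (ℓ + 2 * π + 1) / h by positivity)
    have e1 : (N : ℝ) * h ≤ ((ℓ + 2 * π + 1) / h + 1) * h :=
      mul_le_mul_of_nonneg_right this.le h0.le
    have e2 : ((ℓ + 2 * π + 1) / h + 1) * h = ℓ + 2 * π + 1 + h := by field_simp
    linarith
  set w : ℝ := (N + 2) * h with hw
  have hw0 : 0 < w := by positivity
  refine ⟨N * (C * (1 + 4 * w * (1 + w) / h)) + 1, by positivity, ?_⟩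
  intro q K φ φx φxx φy φyy Z Ta Tb hcyl hcnt hZ hT hTℓ hq hqT t y κ ht1 ht2 hκ
  have hκ0 : 0 ≤ κ := (abs_nonneg _).trans (hκ t y (by simpa using hβ.le) (by simpa using hβ.le))
  set E : ℝ := Real.exp ((N * (C * (1 + 4 * w * (1 + w) / h)) + 1) * (1 + Z)) with hE
  have hE1 : Real.exp (N * (C * (1 + zz φ w t y / h))) ≤ E := by
    refine Real.exp_le_exp.2 ?_
    have e1 : zz φ w t y / h ≤ 4 * w * (1 + w) / h * Z := by
      rw [div_mul_eq_mul_div]
      exact div_le_div_of_nonneg_right (zz_le hcnt hZ hw0.le t y) h0.le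
    have e2 : 0 ≤ 4 * w * (1 + w) / h := by positivity
    have e3 : 1 + zz φ w t y / h ≤ (1 + 4 * w * (1 + w) / h) * (1 + Z) := by nlinarith
    have e4 : N * (C * (1 + zz φ w t y / h)) ≤ N * (C * ((1 + 4 * w * (1 + w) / h) * (1 + Z))) :=
      mul_le_mul_of_nonneg_left (mul_le_mul_of_nonneg_left e3 hC.le) hN0
    refine e4.trans ?_
    have e5 : N * (C * ((1 + 4 * w * (1 + w) / h) * (1 + Z))) =
        N * (C * (1 + 4 * w * (1 + w) / h)) * (1 + Z) := by ring
    rw [e5, add_mul]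
    linarith
  -- the annulus
  have hann : ∀ x' y', Ta ≤ x' → x' ≤ Tb → |φ x' y'| ≤ κ * E := by
    intro x' y' h1 h2
    have hper : Function.Periodic (fun y => φ x' y) (2 * π) := fun y => hcyl.per x' y
    have h3 : φ x' (y' - ⌊(y' - y) / (2 * π)⌋ • (2 * π)) = φ x' y' := hper.sub_zsmul_eq _
    set y'' := y' - ⌊(y' - y) / (2 * π)⌋ • (2 * π) with hy''
    have h4 : |y'' - y| ≤ 2 * π := by
      have h5 := Int.floor_le ((y' - y) / (2 * π))
      have h6 := Int.lt_floor_add_one ((y' - y) / (2 * π))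
      rw [le_div_iff₀ (by positivity)] at h5
      rw [div_lt_iff₀ (by positivity)] at h6
      rw [hy'', zsmul_eq_mul, abs_le]
      constructor
      · linarith
      · linarith
    have h5 := H q K φ φx φxx φy φyy Z hcyl hcnt h w t y κ N h0
      (fun x hx => by
        have e1 := hq x (by
          have : (N + 5) * h = N * h + 5 * h := by ring
          linarith)
        rw [abs_mul, abs_of_nonneg (sq_nonneg h)]
        exact (mul_le_mul_of_nonneg_left e1 (sq_nonneg h)).trans hhQ2)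
      le_rfl (fun x y hx hy => hκ x y (hx.trans hhβ) (hy.trans hhβ)) x' y''
      (by
        rw [abs_le]
        constructor <;> linarith)
      (by linarith)
    rw [h3] at h5
    exact h5.trans (mul_le_mul_of_nonneg_left hE1 hκ0)
  have hK0 : (0 : ℝ) ≤ K := Nat.cast_nonneg _
  have hE0 : 0 < E := Real.exp_pos _
  intro x' y' hx'
  rcases le_total x' Tb with h1 | h1
  · refine (hann x' y' hx' h1).trans ?_
    have e1 : 0 ≤ κ * E := by positivity
    have e2 : κ * (4 * (K + 1)) * E = κ * E * (4 * (K + 1)) := by ring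
    rw [e2]
    have e3 : (1 : ℝ) ≤ 4 * (K + 1) := by linarith
    calc κ * E = κ * E * 1 := (mul_one _).symm
      _ ≤ _ := mul_le_mul_of_nonneg_left e3 e1
  · have h2 := hcap q K φ φx φxx φy φyy Tb (κ * E) hcyl hqT (fun y => hann Tb y hT le_rfl) x' y' h1
    refine h2.trans (le_of_eq ?_)
    ring

end Pool.Agent.N295.SR
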