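import Pool.Agent.N295.SR.Pot

/-!
# Spheres of revolution: the conclusion (helper295)
-/

set_option autoImplicit false

open MeasureTheory Set Real Filter Topology

namespace Pool.Agent.N295.SR

open Pool.Agent.N273.LT (Alt sc)

theorem ncard_comp {ι κ : Type} [Finite ι] {f : κ → ι} (hf : Function.Injective f)
    (P : ι → Prop) : {k | P (f k)}.ncard ≤ {i | P i}.ncard := by
  rw [← Set.ncard_image_of_injective _ hf]
  refine Set.ncard_le_ncard ?_ (Set.toFinite _)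
  rintro _ ⟨k, hk, rfl⟩
  exact hk

/-- The northern hemisphere. -/
theorem north (hgood : S_GOOD) (hbad : S_BADN) (ρm ρM C C₁ : ℝ) (hm : 0 < ρm) (hM : 0 < ρM)
    (hC : 0 < C) (hC1 : 0 < C₁) : ∃ A Λ : ℝ, 0 < A ∧ 0 < Λ ∧ ∀ (ρ : ℝ → ℝ) (lam : ℝ)
    (φ : E3 → ℝ), Met ρ ρm ρM → Eigen ρ lam φ → Λ ≤ lam → ∀ (ι : Type) [Fintype ι] (c : ι → E3),
    (∀ i, c i = np ∨ ∃ t θ : ℝ, 0 ≤ θ ∧ θ ≤ 2 * π ∧ 0 ≤ t ∧ c i = merc t θ) →
    (∀ q : E3, ‖q‖ = 1 → ({i | q ∈ disc ρ (c i) (C / Real.sqrt lam)}.ncard : ℝ) ≤ C₁) →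
    ∑ i, max (doubling ρ φ (c i) (C / Real.sqrt lam)) 0 ≤ A * (1 + lam) := by
  classical
  obtain ⟨ε, A₁, hε, hA₁, HG⟩ := hgood ρm ρM C C₁ hm hM hC hC1
  obtain ⟨A₂, Λ, hA₂, hΛ, HB⟩ := hbad ρm ρM C C₁ ε hm hM hC hC1 hε
  refine ⟨2 * A₁ + A₂, Λ, by positivity, hΛ, ?_⟩
  intro ρ lam φ hρ hφ hl ι _ c hc hmult
  have hlam := hφ.pos
  set R := C / Real.sqrt lam with hR
  set d : ι → ℝ := fun i => max (doubling ρ φ (c i) R) 0 with hd
  set B : ι → Prop := fun i => c i = np ∨ ∃ t θ : ℝ, 0 ≤ θ ∧ θ ≤ 2 * π ∧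
    ε * Real.sqrt lam ≤ Real.exp t ∧ c i = merc t θ with hB
  have hsplit : ∑ i, d i = ∑ i : {i // B i}, d i + ∑ i : {i // ¬ B i}, d i := by
    rw [← Fintype.sum_subtype_add_sum_subtype B d]
  have hb : ∑ i : {i // B i}, d i ≤ A₂ * (1 + lam) :=
    HB ρ lam φ hρ hφ hl {i // B i} (fun i => c i) (fun i => i.2) (fun q hq => by
      refine le_trans ?_ (hmult q hq)
      exact_mod_cast ncard_comp (Subtype.val_injective) (fun i => q ∈ disc ρ (c i) R))
  have hch : ∀ i : {i // ¬ B i}, ∃ t θ : ℝ, 0 ≤ θ ∧ θ ≤ 2 * π ∧ 0 ≤ t ∧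
      Real.exp t < ε * Real.sqrt lam ∧ c i = merc t θ := by
    intro i
    have h1 := i.2
    rcases hc i with h2 | ⟨t, θ, h2, h3, h4, h5⟩
    · exact absurd (Or.inl h2) h1
    · refine ⟨t, θ, h2, h3, h4, ?_, h5⟩
      by_contra hcon
      push Not at hcon
      exact h1 (Or.inr ⟨t, θ, h2, h3, hcon, h5⟩)
  choose t θ k1 k2 k3 k4 k5 using hch
  have hg : ∑ i : {i // ¬ B i}, d i ≤ 2 * A₁ * (1 + lam) := by
    set S : Finset ℕ := Finset.univ.image fun i => ⌊t i⌋₊ with hS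
    have e1 : ∑ i : {i // ¬ B i}, d i = ∑ j ∈ S, ∑ i : {i // ⌊t i⌋₊ = j}, d i.1 := by
      rw [← Finset.sum_fiberwise_of_maps_to (s := Finset.univ) (t := S)
        (g := fun i => ⌊t i⌋₊) (fun i hi => Finset.mem_image_of_mem _ hi)]
      refine Finset.sum_congr rfl fun j _ => ?_
      rw [Finset.sum_subtype (p := fun i => ⌊t i⌋₊ = j) _ (by simp)]
    have e2 : ∀ j ∈ S, ∑ i : {i // ⌊t i⌋₊ = j}, d i.1 ≤ A₁ * Real.exp (-(j : ℝ)) * (1 + lam) := by
      intro j hj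
      have hj' : Real.exp j ≤ ε * Real.sqrt lam := by
        obtain ⟨i, -, rfl⟩ := Finset.mem_image.1 hj
        refine le_trans (Real.exp_le_exp.2 ?_) (k4 i).le
        exact Nat.floor_le (k3 i)
      have := HG ρ lam φ hρ hφ j {i // ⌊t i⌋₊ = j} (fun i => t i.1) (fun i => θ i.1) hj'
        (fun i => by
          have h1 := Nat.floor_le (k3 i.1)
          have h2 := (Nat.lt_floor_add_one (t i.1)).le
          rw [i.2] at h1 h2
          exact ⟨h1, h2⟩)
        (fun i => ⟨k1 i.1, k2 i.1⟩)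
        (fun q hq => by
          refine le_trans ?_ (hmult q hq)
          simp only [← k5]
          exact_mod_cast ncard_comp (f := fun i : {i // ⌊t i⌋₊ = j} => (i.1 : ι))
            (fun a b hab => Subtype.ext (Subtype.ext hab)) (fun i => q ∈ disc ρ (c i) R))
      simp only [← k5] at this
      exact this
    have e3 : ∑ j ∈ S, Real.exp (-(j : ℝ)) ≤ 2 := by
      have h1 : ∀ j : ℕ, Real.exp (-(j : ℝ)) = Real.exp (-1) ^ j := by
        intro j
        rw [← Real.exp_nat_mul]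
        congr 1
        ring
      have h2 : Real.exp (-1) ≤ 1 / 2 := by
        have h3 : (2 : ℝ) ≤ Real.exp 1 := by
          have := Real.add_one_le_exp (1 : ℝ)
          linarith
        rw [Real.exp_neg, ← one_div]
        exact one_div_le_one_div_of_le (by norm_num) h3
      have h3 : ∀ j : ℕ, Real.exp (-(j : ℝ)) ≤ (1 / 2) ^ j := by
        intro j
        rw [h1]
        exact pow_le_pow_left₀ (Real.exp_pos _).le h2 j
      refine (Finset.sum_le_sum fun j _ => h3 j).trans ?_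
      refine (Summable.sum_le_tsum S (fun j _ => by positivity) summable_geometric_two).trans ?_
      rw [tsum_geometric_two]
    rw [e1]
    refine (Finset.sum_le_sum e2).trans ?_
    rw [← Finset.sum_mul, ← Finset.mul_sum]
    have h4 : 0 ≤ 1 + lam := by linarith
    have h5 := mul_le_mul_of_nonneg_left e3 hA₁.le
    have h6 := mul_le_mul_of_nonneg_right h5 h4
    linarith
  have := hsplit
  rw [this]
  linarith

theorem mem_disc_refl (hnp : S_NP) (hre : S_REFL) (ρ : ℝ → ℝ) (p q : E3) (r : ℝ) :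
    q ∈ disc (fun z => ρ (-z)) (refl p) r ↔ refl q ∈ disc ρ p r := by
  obtain ⟨-, -, -, -, -, hrr, hn, -, -⟩ := hnp
  have h1 := hre ρ p (refl q)
  rw [hrr] at h1
  unfold disc
  simp only [Set.mem_ofPred_eq]
  rw [hn, h1]

theorem doubling_refl (hnp : S_NP) (hre : S_REFL) (ρ : ℝ → ℝ) (φ : E3 → ℝ) (p : E3) (r : ℝ) :
    doubling (fun z => ρ (-z)) (fun p => φ (refl p)) (refl p) r = doubling ρ φ p r := by
  have hrr := hnp.2.2.2.2.2.1
  have h1 : ∀ r, (fun q => |φ (refl q)|) '' disc (fun z => ρ (-z)) (refl p) r =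
      (fun q => |φ q|) '' disc ρ p r := by
    intro r
    ext x
    constructor
    · rintro ⟨q, hq, rfl⟩
      exact ⟨refl q, (mem_disc_refl hnp hre ρ p q r).1 hq, rfl⟩
    · rintro ⟨q, hq, rfl⟩
      refine ⟨refl q, (mem_disc_refl hnp hre ρ p (refl q) r).2 ?_, ?_⟩
      · rwa [hrr]
      · simp only [hrr]
  unfold doubling
  rw [h1, h1]

/-- The sum of the doubling indices. -/
theorem sum_bound (hnp : S_NP) (hre : S_REFL) (hgood : S_GOOD) (hbad : S_BADN) (hsmall : S_SMALL)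
    (ρm ρM C C₁ : ℝ) (hm : 0 < ρm) (hM : 0 < ρM)
    (hC : 0 < C) (hC1 : 0 < C₁) : ∃ A : ℝ, 0 < A ∧ ∀ (ρ : ℝ → ℝ) (lam : ℝ)
    (φ : E3 → ℝ), Met ρ ρm ρM → Eigen ρ lam φ → ∀ (ι : Type) [Fintype ι] (c : ι → E3),
    (∀ i, ‖c i‖ = 1) →
    (∀ q : E3, ‖q‖ = 1 → ({i | q ∈ disc ρ (c i) (C / Real.sqrt lam)}.ncard : ℝ) ≤ C₁) →
    ∑ i, max (doubling ρ φ (c i) (C / Real.sqrt lam)) 0 ≤ A * (1 + lam) := by
  classical
  obtain ⟨A₁, Λ, hA₁, hΛ, H⟩ := north hgood hbad ρm ρM C C₁ hm hM hC hC1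
  obtain ⟨A₂, hA₂, HS⟩ := hsmall ρm ρM C C₁ Λ hm hM hC hC1 hΛ
  refine ⟨2 * A₁ + A₂, by positivity, ?_⟩
  intro ρ lam φ hρ hφ ι _ c hc hmult
  have hlam := hφ.pos
  rcases le_total lam Λ with hl | hl
  · refine (HS ρ lam φ hρ hφ hl ι c hc hmult).trans ?_
    nlinarith
  set R := C / Real.sqrt lam with hR
  set d : ι → ℝ := fun i => max (doubling ρ φ (c i) R) 0 with hd
  set B : ι → Prop := fun i => c i = np ∨ ∃ t θ : ℝ, 0 ≤ θ ∧ θ ≤ 2 * π ∧ 0 ≤ t ∧
    c i = merc t θ with hB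
  have hsplit : ∑ i, d i = ∑ i : {i // B i}, d i + ∑ i : {i // ¬ B i}, d i := by
    rw [← Fintype.sum_subtype_add_sum_subtype B d]
  have h1 : ∑ i : {i // B i}, d i ≤ A₁ * (1 + lam) :=
    H ρ lam φ hρ hφ hl {i // B i} (fun i => c i) (fun i => i.2) (fun q hq => by
      refine le_trans ?_ (hmult q hq)
      exact_mod_cast ncard_comp (Subtype.val_injective) (fun i => q ∈ disc ρ (c i) R))
  have hρ' : Met (fun z => ρ (-z)) ρm ρM :=
    ⟨hρ.c.comp continuous_neg, hρ.pos, fun z => hρ.lo _, fun z => hρ.hi _⟩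
  have h2 : ∑ i : {i // ¬ B i}, d i ≤ A₁ * (1 + lam) := by
    have h3 := H (fun z => ρ (-z)) lam (fun p => φ (refl p)) hρ' (ER hnp hφ) hl {i // ¬ B i}
      (fun i => refl (c i)) (fun i => by
        have h4 := i.2
        rcases hnp.2.2.1 (c i) (hc i) with h5 | h5 | ⟨t, θ, h5, h6, h7⟩
        · exact absurd (Or.inl h5) h4
        · left
          rw [h5, hnp.2.2.2.2.2.1]
        · right
          have h8 : t < 0 := by
            by_contra hcon
            push Not at hcon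
            exact h4 (Or.inr ⟨t, θ, h5, h6.le, hcon, h7⟩)
          refine ⟨-t, θ, h5, h6.le, by linarith, ?_⟩
          rw [h7, hnp.2.2.2.2.1]) (fun q hq => by
        refine le_trans ?_ (hmult (refl q) (by rw [hnp.2.2.2.2.2.2.1, hq]))
        simp only [mem_disc_refl hnp hre]
        exact_mod_cast ncard_comp (Subtype.val_injective) (fun i => refl q ∈ disc ρ (c i) R))
    simp only [doubling_refl hnp hre] at h3
    exact h3
  have h4 : 0 ≤ A₂ * (1 + lam) := by positivity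
  rw [hsplit]
  linarith

/-- The theorem. -/
theorem MAIN (hnp : S_NP) (hre : S_REFL) (hgood : S_GOOD) (hbad : S_BADN) (hsmall : S_SMALL) :
    S_MAIN := by
  classical
  intro ρ hρ hpos C C₁ C₂ hC hC1 hC2
  set ρ' : ℝ → ℝ := fun z => ρ (max (-1) (min 1 z)) with hρ'
  have hρ'c : Continuous ρ' := hρ.comp (by fun_prop)
  have hmem : ∀ z : ℝ, max (-1) (min 1 z) ∈ Icc (-1 : ℝ) 1 := fun z =>
    ⟨le_max_left _ _, max_le (by norm_num) (min_le_left _ _)⟩
  obtain ⟨z₁, hz₁, hmin⟩ := isCompact_Icc.exists_isMinOn (⟨0, by norm_num, by norm_num⟩ :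
    (Icc (-1 : ℝ) 1).Nonempty) hρ.continuousOn
  obtain ⟨z₂, hz₂, hmax⟩ := isCompact_Icc.exists_isMaxOn (⟨0, by norm_num, by norm_num⟩ :
    (Icc (-1 : ℝ) 1).Nonempty) hρ.continuousOn
  have hM : Met ρ' (ρ z₁) (ρ z₂) :=
    ⟨hρ'c, hpos z₁, fun z => hmin (hmem z), fun z => hmax (hmem z)⟩
  have hcl : ∀ z : ℝ, |z| ≤ 1 → ρ' z = ρ z := by
    intro z hz
    have := abs_le.1 hz
    rw [hρ']
    simp only
    rw [min_eq_right this.2, max_eq_right this.1]
  have hco : ∀ p : E3, ‖p‖ = 1 → |p 2| ≤ 1 := by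
    intro p hp
    have h1 := EuclideanSpace.norm_sq_eq p
    rw [hp, Fin.sum_univ_three] at h1
    have h2 : p 2 ^ 2 ≤ 1 := by
      simp only [Real.norm_eq_abs, sq_abs] at h1
      nlinarith [sq_nonneg (p 0), sq_nonneg (p 1)]
    exact abs_le_one_iff_mul_self_le_one.2 (by nlinarith)
  have hg : ∀ p q, gdist ρ' p q = gdist ρ p q := by
    intro p q
    unfold gdist
    congr 1
    ext l
    refine exists_congr fun γ => ?_
    refine and_congr_right fun _ => and_congr_right fun h2 => and_congr_right fun _ =>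
      and_congr_right fun _ => ?_
    have : len ρ' γ = len ρ γ := by
      unfold len
      refine intervalIntegral.integral_congr fun s _ => ?_
      simp only
      rw [hcl _ (hco _ (h2 s))]
    rw [this]
  have hdisc : ∀ p r, disc ρ' p r = disc ρ p r := by
    intro p r
    unfold disc
    simp only [hg]
  have hdoub : ∀ φ p r, doubling ρ' φ p r = doubling ρ φ p r := by
    intro φ p r
    unfold doubling
    simp only [hdisc]
  have hpot : ∀ lam t, pot ρ' lam t = pot ρ lam t := by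
    intro lam t
    unfold pot
    rw [hcl _ (Real.abs_tanh_lt_one t).le]
  obtain ⟨A, hA, H⟩ := sum_bound hnp hre hgood hbad hsmall (ρ z₁) (ρ z₂) C C₁ (hpos _) (hpos _)
    hC hC1
  refine ⟨A * (1 + C₂), by positivity, ?_⟩
  intro lam φ hφ ι _ c hadm
  have hφ' : Eigen ρ' lam φ := by
    refine ⟨hφ.pos, hφ.cont, hφ.ne, hφ.smooth, fun t θ => ?_⟩
    rw [hpot]
    exact hφ.eq t θ
  have hlam := hφ.pos
  have h1 := H ρ' lam φ hM hφ' ι c hadm.mem (fun q hq => by
    simp only [hdisc]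
    exact hadm.mult q hq)
  simp only [hdoub] at h1
  have h2 : ∑ i, doubling ρ φ (c i) (C / Real.sqrt lam) ≤ A * (1 + lam) :=
    (Finset.sum_le_sum fun i _ => le_max_left _ _).trans h1
  obtain ⟨i0, -⟩ := hadm.cover np hnp.2.2.2.2.2.2.2.1
  have h3 : (1 : ℝ) ≤ Fintype.card ι := by
    have : 0 < Fintype.card ι := Fintype.card_pos_iff.2 ⟨i0⟩
    exact_mod_cast this
  have h4 : lam ≤ C₂ * Fintype.card ι := by
    have := hadm.lower
    rw [inv_mul_le_iff₀ hC2] at this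
    exact this
  rw [div_le_iff₀ (by linarith)]
  refine h2.trans ?_
  have h5 : 1 + lam ≤ (1 + C₂) * Fintype.card ι := by nlinarith
  calc A * (1 + lam) ≤ A * ((1 + C₂) * Fintype.card ι) := mul_le_mul_of_nonneg_left h5 hA.le
    _ = _ := by ring

end Pool.Agent.N295.SR
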