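import Pool.Agent.N273.LT.Sc
import Pool.Agent.Y291.DB.Modes

/-!
# Spheres of revolution: definitions and the statements of the modules (helper295)

The sphere `S²` with a metric `ρ(x₃) g` conformal to the round metric `g` and invariant under the
rotations around the third axis.  In Mercator coordinates
`merc t θ = (cos θ / cosh t, sin θ / cosh t, tanh t)` the metric is
`(ρ(tanh t) / cosh² t) (dt² + dθ²)`.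
-/

set_option autoImplicit false

open MeasureTheory Set Real

namespace Pool.Agent.N295.SR

open Pool.Agent.N273.LT (Alt sc)
open Pool.Agent.Y291.DB (Sol um)

/-- Euclidean space of dimension three. -/
abbrev E3 : Type := EuclideanSpace ℝ (Fin 3)

/-- The Mercator coordinates of the sphere. -/
noncomputable def merc (t θ : ℝ) : E3 := !₂[cos θ / cosh t, sin θ / cosh t, tanh t]

/-- The length of a curve `γ : [0, 1] → S²` in the metric `ρ(x₃) g`. -/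
noncomputable def len (ρ : ℝ → ℝ) (γ : ℝ → E3) : ℝ :=
  ∫ s in (0 : ℝ)..1, Real.sqrt (ρ (γ s 2)) * ‖deriv γ s‖

/-- The Riemannian distance of `p` and `q` on the sphere with the metric `ρ(x₃) g`. -/
noncomputable def gdist (ρ : ℝ → ℝ) (p q : E3) : ℝ :=
  sInf {l : ℝ | ∃ γ : ℝ → E3, ContDiff ℝ 1 γ ∧ (∀ s, ‖γ s‖ = 1) ∧ γ 0 = p ∧ γ 1 = q ∧
    l = len ρ γ}

/-- The geodesic disc. -/
def disc (ρ : ℝ → ℝ) (p : E3) (r : ℝ) : Set E3 := {q | ‖q‖ = 1 ∧ gdist ρ p q < r}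

/-- The doubling index of `φ` on the geodesic disc of radius `r` with center `p`. -/
noncomputable def doubling (ρ : ℝ → ℝ) (φ : E3 → ℝ) (p : E3) (r : ℝ) : ℝ :=
  Real.logb 2 (sSup ((fun q => |φ q|) '' disc ρ p (2 * r)) /
    sSup ((fun q => |φ q|) '' disc ρ p r))

/-- The potential. -/
noncomputable def pot (ρ : ℝ → ℝ) (lam t : ℝ) : ℝ := lam * (ρ (tanh t) / cosh t ^ 2)

/-- `φ` is a real eigenfunction with eigenvalue `lam > 0` of the Laplacian of the sphere with the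
metric `ρ(x₃) g`: it is continuous on the sphere and in Mercator coordinates, in which the metric is
`(ρ(tanh t) / cosh² t) (dt² + dθ²)`, it is of class `C²` and satisfies
`φ_tt + φ_θθ + lam (ρ(tanh t) / cosh² t) φ = 0`. -/
structure Eigen (ρ : ℝ → ℝ) (lam : ℝ) (φ : E3 → ℝ) : Prop where
  pos : 0 < lam
  cont : ContinuousOn φ (Metric.sphere 0 1)
  ne : ∃ p : E3, ‖p‖ = 1 ∧ φ p ≠ 0
  smooth : ContDiff ℝ 2 (fun z : ℝ × ℝ => φ (merc z.1 z.2))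
  eq : ∀ t θ : ℝ, iteratedDeriv 2 (fun t => φ (merc t θ)) t +
    iteratedDeriv 2 (fun θ => φ (merc t θ)) θ + pot ρ lam t * φ (merc t θ) = 0

/-- The discs of radius `C / √lam` with centers `c i` form an admissible covering for `φ` with
constants `C`, `C₁`, `C₂`. -/
structure Admissible (ρ : ℝ → ℝ) (lam : ℝ) (φ : E3 → ℝ) (C C₁ C₂ : ℝ)
    {ι : Type} [Fintype ι] (c : ι → E3) : Prop where
  mem : ∀ i, ‖c i‖ = 1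
  cover : ∀ q : E3, ‖q‖ = 1 → ∃ i, q ∈ disc ρ (c i) (C / Real.sqrt lam)
  lower : C₂⁻¹ * lam ≤ Fintype.card ι
  upper : (Fintype.card ι : ℝ) ≤ C₂ * lam
  mult : ∀ q : E3, ‖q‖ = 1 → ({i | q ∈ disc ρ (c i) (C / Real.sqrt lam)}.ncard : ℝ) ≤ C₁
  zero : ∀ i, φ (c i) = 0

/-! ### Solutions on the cylinder -/

/-- A bounded solution of `φ_xx + φ_yy + q(x) φ = 0` which is `2π`-periodic in `y` and has only
Fourier modes of order at most `K`. -/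
structure Cyl (q : ℝ → ℝ) (K : ℕ) (φ φx φxx φy φyy : ℝ → ℝ → ℝ) : Prop where
  s : Sol q φ φx φxx φy φyy
  per : ∀ x y, φ x (y + 2 * π) = φ x y
  bdd : ∃ B, ∀ x y, |φ x y| ≤ B
  modes : ∀ x, ∀ k : ℤ, (K : ℤ) < |k| → um φ k x = 0

/-- Bounds of the numbers of sign changes. -/
structure Cnt (φ : ℝ → ℝ → ℝ) (Z : ℝ) : Prop where
  a : ∀ x a b : ℝ, ∀ n : ℕ, a ≤ b → Alt (fun y => φ x y) (Ioo a b) n → (n : ℝ) ≤ Z * (1 + (b - a))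
  b : ∀ y : ℝ, ∀ n : ℕ, Alt (fun x => φ x y) univ n → (n : ℝ) ≤ Z

/-- Number of sign changes on a window of a vertical line. -/
noncomputable def n1 (φ : ℝ → ℝ → ℝ) (w x y : ℝ) : ℕ := sc (fun t => φ x t) (y + -w) (y + w)

/-- Number of sign changes on a window of a horizontal line. -/
noncomputable def n2 (φ : ℝ → ℝ → ℝ) (w x y : ℝ) : ℕ := sc (fun t => φ t y) (x + -w) (x + w)

/-- The growth exponent. -/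
noncomputable def zz (φ : ℝ → ℝ → ℝ) (w X Y : ℝ) : ℝ :=
  (∫ x in (X - w)..(X + w), (n1 φ w x Y : ℝ)) + ∫ y in (Y - w)..(Y + w), (n2 φ w X y : ℝ)

/-- Sturm's upper bound on the line. -/
def S_LINE : Prop := ∀ (n : ℕ) (D : ℝ) (q : ℝ → ℝ) (ν : Fin n → ℝ) (w w' : Fin n → ℝ → ℝ),
  0 ≤ D → Continuous q → (∀ x, 0 ≤ q x) → (∀ x, q x ≤ D * Real.exp (-2 * |x|)) →
  (∀ i, ν i = 0 ∨ 1 ≤ ν i) → (∀ i x, HasDerivAt (w i) (w' i x) x) →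
  (∀ i x, HasDerivAt (w' i) ((ν i - q x) * w i x) x) → (∀ i, ∃ B, ∀ x, |w i x| ≤ B) →
  ∀ M : ℕ, Alt (fun x => ∑ i, w i x) univ M → (M : ℝ) ≤ 100 * (1 + Real.sqrt D)

/-- High modes vanish. -/
def S_MODE : Prop := ∀ (q : ℝ → ℝ) (φ φx φxx φy φyy : ℝ → ℝ → ℝ) (Q : ℝ),
  Sol q φ φx φxx φy φyy → (∀ x y, φ x (y + 2 * π) = φ x y) → (∃ B, ∀ x y, |φ x y| ≤ B) →
  (∀ x, q x ≤ Q) → ∀ k : ℤ, Q < (k : ℝ) ^ 2 → ∀ x, um φ k x = 0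

/-- The numbers of sign changes. -/
def S_CNT : Prop := ∃ Z₀ : ℝ, 0 < Z₀ ∧ ∀ (D : ℝ) (q : ℝ → ℝ) (K : ℕ)
  (φ φx φxx φy φyy : ℝ → ℝ → ℝ), 0 ≤ D → Cyl q K φ φx φxx φy φyy → (∀ x, 0 ≤ q x) →
  (∀ x, q x ≤ D * Real.exp (-2 * |x|)) → (K : ℝ) ≤ Real.sqrt D → Cnt φ (Z₀ * (1 + Real.sqrt D))

/-- Extension of a solution from a half cylinder with a constant potential. -/
def S_EXT : Prop := ∀ (q : ℝ → ℝ) (K : ℕ) (φ φx φxx φy φyy : ℝ → ℝ → ℝ),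
  Sol q φ φx φxx φy φyy → (∀ x y, φ x (y + 2 * π) = φ x y) →
  (∀ x, ∀ k : ℤ, (K : ℤ) < |k| → um φ k x = 0) → ∀ τ : ℝ,
  ∃ ψ ψx ψxx ψy ψyy : ℝ → ℝ → ℝ, Sol (fun x => q (max x τ)) ψ ψx ψxx ψy ψyy ∧
    ∀ x y, τ ≤ x → ψ x y = φ x y

/-- One step of a chain of boxes. -/
def S_STEP : Prop := ∃ C : ℝ, 0 < C ∧ ∀ (q : ℝ → ℝ) (K : ℕ) (φ φx φxx φy φyy : ℝ → ℝ → ℝ)
  (Z : ℝ), Cyl q K φ φx φxx φy φyy → Cnt φ Z → ∀ r w X Y a b a' b' κ : ℝ, 0 < r →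
  (∀ x, a - 5 * r ≤ x → |r ^ 2 * q x| ≤ 1 / 100) →
  |a - X| + 2 * r ≤ w → |b - Y| + 2 * r ≤ w → |a' - a| ≤ r → |b' - b| ≤ r →
  (∀ x y, |x - a'| ≤ r → |y - b'| ≤ r → |φ x y| ≤ κ) →
  ∀ x y, |x - a| ≤ r → |y - b| ≤ r → |φ x y| ≤ κ * Real.exp (C * (1 + zz φ w X Y / r))

/-- Chains of boxes. -/
def S_CHAIN : Prop := ∃ C : ℝ, 0 < C ∧ ∀ (q : ℝ → ℝ) (K : ℕ) (φ φx φxx φy φyy : ℝ → ℝ → ℝ)
  (Z : ℝ), Cyl q K φ φx φxx φy φyy → Cnt φ Z → ∀ (r w X Y κ : ℝ) (N : ℕ), 0 < r →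
  (∀ x, X - (N + 5) * r ≤ x → |r ^ 2 * q x| ≤ 1 / 100) → (N + 2) * r ≤ w →
  (∀ x y, |x - X| ≤ r → |y - Y| ≤ r → |φ x y| ≤ κ) →
  ∀ a b, |a - X| ≤ N * r → |b - Y| ≤ N * r →
    |φ a b| ≤ κ * Real.exp (N * (C * (1 + zz φ w X Y / r)))

/-- The maximum on a cap. -/
def S_CAP : Prop := ∀ (q : ℝ → ℝ) (K : ℕ) (φ φx φxx φy φyy : ℝ → ℝ → ℝ) (T S : ℝ),
  Cyl q K φ φx φxx φy φyy →
  (∀ x, T ≤ x → 0 ≤ q x ∧ q x ≤ Real.exp (-2 * (x - T)) / 8) → (∀ y, |φ T y| ≤ S) →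
  ∀ x y, T ≤ x → |φ x y| ≤ 4 * (K + 1) * S

/-- Growth from a small box to an annulus and the cap behind it. -/
def S_ANN : Prop := ∀ Q₀ ℓ β : ℝ, 0 < Q₀ → 0 < ℓ → 0 < β → ∃ C : ℝ, 0 < C ∧
  ∀ (q : ℝ → ℝ) (K : ℕ) (φ φx φxx φy φyy : ℝ → ℝ → ℝ) (Z Ta Tb : ℝ),
  Cyl q K φ φx φxx φy φyy → Cnt φ Z → 0 ≤ Z → Ta ≤ Tb → Tb - Ta ≤ ℓ →
  (∀ x, Ta - (ℓ + 20) ≤ x → |q x| ≤ Q₀) →
  (∀ x, Tb ≤ x → 0 ≤ q x ∧ q x ≤ Real.exp (-2 * (x - Tb)) / 8) →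
  ∀ t y κ : ℝ, Ta ≤ t → t ≤ Tb → (∀ x' y', |x' - t| ≤ β → |y' - y| ≤ β → |φ x' y'| ≤ κ) →
  ∀ x' y', Ta ≤ x' → |φ x' y'| ≤ κ * (4 * (K + 1)) * Real.exp (C * (1 + Z))

/-- Summation over discs in a slab. -/
def S_SLAB : Prop := ∀ (φ : ℝ → ℝ → ℝ) (Z : ℝ), Continuous (Function.uncurry φ) → Cnt φ Z →
  ∀ (j E s b w C₁ : ℝ) (ι : Type) [Fintype ι] (p : ι → ℝ × ℝ) (d : ι → ℝ),
  0 ≤ E → 0 < s → 0 < b → b ≤ 1 → 0 < w → w ≤ 1 →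
  (∀ i, j ≤ (p i).1 ∧ (p i).1 ≤ j + 1) → (∀ i, 0 ≤ (p i).2 ∧ (p i).2 ≤ 2 * π) →
  (∀ i, 0 ≤ d i) →
  (∀ i x y, |x - (p i).1| ≤ b → |y - (p i).2| ≤ b → d i ≤ E * (1 + zz φ w x y / s)) →
  (∀ x y, ({i | |x - (p i).1| ≤ b ∧ |y - (p i).2| ≤ b}.ncard : ℝ) ≤ C₁) →
  (∑ i, d i) * (2 * b) ^ 2 ≤ C₁ * E * (3 * (2 * π + 2) +
    4 * w ^ 2 / s * (3 * (Z * (1 + (2 * π + 6))) + (2 * π + 2) * Z))

/-- Counting boxes in an annulus. -/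
def S_BOX : Prop := ∀ (Ta Tb b C₁ : ℝ) (ι : Type) [Fintype ι] (p : ι → ℝ × ℝ),
  0 < b → b ≤ 1 → Ta ≤ Tb → (∀ i, Ta ≤ (p i).1 ∧ (p i).1 ≤ Tb) →
  (∀ i, 0 ≤ (p i).2 ∧ (p i).2 ≤ 2 * π) →
  (∀ x y, ({i | |x - (p i).1| ≤ b ∧ |y - (p i).2| ≤ b}.ncard : ℝ) ≤ C₁) →
  (Fintype.card ι : ℝ) * (2 * b) ^ 2 ≤ C₁ * ((Tb - Ta + 2) * (2 * π + 2))

/-! ### Geometry -/

/-- The chordal distance in Mercator coordinates. -/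
def S_CHORD : Prop := ∀ t θ t' θ' : ℝ, ‖merc t θ - merc t' θ'‖ ^ 2 =
  2 * (cosh (t - t') - cos (θ - θ')) / (cosh t * cosh t')

/-- The coordinates. -/
def S_COORD : Prop := (∀ t θ, ‖merc t θ‖ = 1 ∧ merc t θ 2 = tanh t) ∧
  ∀ p : E3, ‖p‖ = 1 → |p 2| < 1 → ∃ t θ : ℝ, 0 ≤ θ ∧ θ < 2 * π ∧ p = merc t θ

/-- The Riemannian distance and the chordal distance: lower bound. -/
def S_DLOW : Prop := ∀ (ρ : ℝ → ℝ) (ρm : ℝ), Continuous ρ → 0 < ρm → (∀ z, ρm ≤ ρ z) →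
  ∀ p q : E3, ‖p‖ = 1 → ‖q‖ = 1 → Real.sqrt ρm * ‖p - q‖ ≤ gdist ρ p q

/-- The Riemannian distance and the chordal distance: upper bound. -/
def S_DUP : Prop := ∀ (ρ : ℝ → ℝ) (ρM : ℝ), Continuous ρ → (∀ z, 0 < ρ z) → (∀ z, ρ z ≤ ρM) →
  ∀ p q : E3, ‖p‖ = 1 → ‖q‖ = 1 → gdist ρ p q ≤ π / 2 * Real.sqrt ρM * ‖p - q‖

/-- The reflection in the equator. -/
noncomputable def refl (p : E3) : E3 := !₂[p 0, p 1, -p 2]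

/-- The reflection is an isometry. -/
def S_REFL : Prop := ∀ (ρ : ℝ → ℝ) (p q : E3),
  gdist (fun z => ρ (-z)) (refl p) (refl q) = gdist ρ p q

end Pool.Agent.N295.SR
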