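import Pool.Agent.N295.SR.Stm

/-!
# Spheres of revolution: the parts of Sturm's upper bound on the line (helper295)
-/

set_option autoImplicit false

open MeasureTheory Set Real Filter Topology

namespace Pool.Agent.N295.SR

open Pool.Agent.N273.LT (Alt sc)

/-- A bounded solution of `U'' = (ν - q) U`, where `0 ≤ q ≤ D exp (-2 |x|)` and `ν = 0` or
`1 ≤ ν`. -/
structure BSol (D : ℝ) (q : ℝ → ℝ) (ν : ℝ) (U U' : ℝ → ℝ) : Prop where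
  hD : 0 ≤ D
  qc : Continuous q
  q0 : ∀ x, 0 ≤ q x
  qD : ∀ x, q x ≤ D * Real.exp (-2 * |x|)
  hν : ν = 0 ∨ 1 ≤ ν
  d1 : ∀ x, HasDerivAt U (U' x) x
  d2 : ∀ x, HasDerivAt U' ((ν - q x) * U x) x
  bdd : ∃ B, ∀ x, |U x| ≤ B

/-- Limits of bounded solutions. -/
def S_LA1 : Prop := ∀ (D : ℝ) (q : ℝ → ℝ) (ν : ℝ) (U U' : ℝ → ℝ), BSol D q ν U U' →
  (∃ c, Tendsto U atTop (𝓝 c)) ∧ (∃ c, Tendsto U atBot (𝓝 c)) ∧
  Tendsto (fun x => (ν - q x) * U x) atTop (𝓝 0) ∧ Tendsto (fun x => (ν - q x) * U x) atBot (𝓝 0)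

/-- A bounded solution does not vanish for large `|x|`. -/
def S_LA2 : Prop := ∀ (D : ℝ) (q : ℝ → ℝ) (ν : ℝ) (U U' : ℝ → ℝ), BSol D q ν U U' →
  (∃ x, U x ≠ 0) → ∀ x, Real.sqrt D + 3 ≤ |x| → U x ≠ 0

/-- The solution with the smallest parameter dominates for large `|x|`. -/
def S_LA3 : Prop := ∀ (D : ℝ) (q : ℝ → ℝ) (ν ν' : ℝ) (U U' V V' : ℝ → ℝ), BSol D q ν U U' →
  BSol D q ν' V V' → (∃ x, U x ≠ 0) → ν < ν' →
  ∃ R, ∀ x, Real.sqrt D + 3 ≤ |x| → |V x| ≤ R * |U x|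

/-- The operator `-u'' + (a - q) u` does not lose sign changes on the line. -/
def S_LB : Prop := ∀ (u u' u'' q : ℝ → ℝ) (a c₁ c₂ : ℝ), (∀ x, HasDerivAt u (u' x) x) →
  (∀ x, HasDerivAt u' (u'' x) x) → (∀ x, 0 < a - q x) → 0 < a → Tendsto q atTop (𝓝 0) →
  Tendsto q atBot (𝓝 0) → Tendsto u atTop (𝓝 c₁) → Tendsto u atBot (𝓝 c₂) →
  Tendsto u'' atTop (𝓝 0) → Tendsto u'' atBot (𝓝 0) →
  ∀ n : ℕ, Alt u univ n → Alt (fun x => -u'' x + (a - q x) * u x) univ n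

/-- The number of sign changes of a perturbation of a solution on a bounded interval. -/
def S_LC : Prop := ∀ (D K : ℝ) (q : ℝ → ℝ) (ν : ℝ) (U U' : ℝ → ℝ), 0 < K → BSol D q ν U U' →
  (∃ x, U x ≠ 0) → ∃ κ : ℝ, 0 < κ ∧ ∀ v v' : ℝ → ℝ, (∀ x, HasDerivAt v (v' x) x) →
  (∀ x, |x| ≤ K → |v x - U x| < κ) → (∀ x, |x| ≤ K → |v' x - U' x| < κ) →
  ∀ n : ℕ, Alt v (Icc (-K) K) n → (n : ℝ) ≤ 1 + 2 * (16 * Real.sqrt D + 2 * K)

/-- Sturm's upper bound on the line follows. -/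
def S_LD : Prop := S_LA1 → S_LA2 → S_LA3 → S_LB → S_LC → S_LINE

end Pool.Agent.N295.SR
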