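import Pool.Agent.N295.SR.Good
import Pool.Agent.N295.SR.Final
import Pool.Agent.N295.SR.Ann
import Pool.Agent.N519.SR.LB
import Pool.Agent.N519.SR.Step
import Pool.Agent.N755.SR.LC
import Pool.Agent.N457.SR.Ld
import Pool.Agent.N530.SR.Geo
import Pool.Agent.N9.SR.LA
import Pool.Agent.N427.SR.Cnt
import Pool.Agent.N645.SR.Cap
import Pool.Agent.N438.SR.Ext
import Pool.Agent.N163.SR.Cyle
import Pool.Agent.N861.SR.Geo2
import Pool.Agent.N622.SR.Badn
import Pool.Agent.N383.SR.Small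
import Pool.Agent.N429.SR.Slab

/-!
# Spheres of revolution: the modules put together (helper295)
-/

set_option autoImplicit false

namespace Pool.Agent.N295.SR

theorem f_CHORD : S_CHORD := Pool.Agent.N530.SR.CHORD
theorem f_COORD : S_COORD := Pool.Agent.N530.SR.COORD
theorem f_DLOW : S_DLOW := Pool.Agent.N530.SR.DLOW
theorem f_DUP : S_DUP := Pool.Agent.N530.SR.DUP
theorem f_REFL : S_REFL := Pool.Agent.N530.SR.REFL
theorem f_NP : S_NP := Pool.Agent.N861.SR.NP f_COORD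
theorem f_BIN : S_BIN := Pool.Agent.N861.SR.BIN f_CHORD f_DUP f_COORD
theorem f_DIN : S_DIN := Pool.Agent.N861.SR.DIN f_CHORD f_COORD f_DLOW f_NP
theorem f_MODE : S_MODE := Pool.Agent.N645.SR.MODE
theorem f_CAP : S_CAP := Pool.Agent.N645.SR.CAP
theorem f_LINE : S_LINE := Pool.Agent.N457.SR.LD Pool.Agent.N9.SR.LA1 Pool.Agent.N9.SR.LA2
  Pool.Agent.N9.SR.LA3 Pool.Agent.N519.SR.LB.t_LB Pool.Agent.N755.SR.LC
theorem f_CNT : S_CNT := Pool.Agent.N427.SR.CNT f_LINE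
theorem f_CYLE : S_CYLE := Pool.Agent.N163.SR.CYLE f_MODE
theorem f_CE : S_CE := CE f_CYLE f_CNT
theorem f_CHAIN : S_CHAIN :=
  Pool.Agent.N519.SR.Step.CHAIN (Pool.Agent.N519.SR.Step.STEP Pool.Agent.N438.SR.EXT)
theorem f_GOOD : S_GOOD :=
  GOOD f_COORD f_BIN f_DIN DOUB POT f_CE f_CHAIN Pool.Agent.N429.SR.SLAB

theorem main_of_ann (hann : S_ANN) : S_MAIN :=
  MAIN f_NP f_REFL f_GOOD
    (Pool.Agent.N622.SR.BADN f_BIN f_NP DOUB POT f_CE hann Pool.Agent.N429.SR.BOX f_DLOW f_DUP)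
    (Pool.Agent.N383.SR.SMALL f_BIN f_NP DOUB POT f_CE hann f_CAP Pool.Agent.N429.SR.BOX f_DUP)

theorem f_ANN : S_ANN := ANN f_CHAIN f_CAP

theorem f_MAIN : S_MAIN := main_of_ann f_ANN

end Pool.Agent.N295.SR
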