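import Pool.Agent.N295.SR.Pot

/-!
# Spheres of revolution: the discs which are not close to the north pole (helper295)
-/

set_option autoImplicit false

open MeasureTheory Set Real Filter Topology

namespace Pool.Agent.N295.SR

open Pool.Agent.N273.LT (Alt sc)

theorem zz_nonneg (φ : ℝ → ℝ → ℝ) {w : ℝ} (hw : 0 ≤ w) (X Y : ℝ) : 0 ≤ zz φ w X Y := by
  unfold zz
  refine add_nonneg ?_ ?_
  · exact intervalIntegral.integral_nonneg (by linarith) fun x _ => Nat.cast_nonneg _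
  · exact intervalIntegral.integral_nonneg (by linarith) fun x _ => Nat.cast_nonneg _

theorem exp_two_le : Real.exp 2 ≤ 8 := by
  have : Real.exp 2 = Real.exp 1 * Real.exp 1 := by
    rw [← Real.exp_add]
    norm_num
  rw [this]
  have h6 := Real.exp_one_lt_d9
  have h7 := Real.exp_pos 1
  nlinarith

theorem aux_s {s lam : ℝ} {j : ℕ} (hlam : 0 < lam) (hs : s = Real.exp j / Real.sqrt lam) :
    s ^ 2 * lam * Real.exp (-2 * j) = 1 := by
  rw [hs, div_pow, Real.sq_sqrt hlam.le, ← Real.exp_nat_mul]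
  rw [div_mul_eq_mul_div, div_mul_eq_mul_div, div_eq_one_iff_eq hlam.ne']
  have : Real.exp (((2 : ℕ) : ℝ) * (j : ℝ)) * Real.exp (-2 * j) = 1 := by
    rw [← Real.exp_add]
    norm_num
  calc Real.exp (((2 : ℕ) : ℝ) * (j : ℝ)) * lam * Real.exp (-2 * j)
      = (Real.exp (((2 : ℕ) : ℝ) * (j : ℝ)) * Real.exp (-2 * j)) * lam := by ring
    _ = lam := by rw [this, one_mul]

theorem aux_h {h ρM : ℝ} (hM : 0 < ρM) (hh : 0 < h) (hhM : h * (60 * (Real.sqrt ρM + 1)) ≤ 1) :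
    3600 * (h ^ 2 * ρM) ≤ 1 := by
  have h6 : Real.sqrt ρM ^ 2 = ρM := Real.sq_sqrt hM.le
  have h7 : 60 * (h * Real.sqrt ρM) ≤ 1 := by linarith
  have h8 : 0 ≤ 60 * (h * Real.sqrt ρM) := by positivity
  have h9 : (60 * (h * Real.sqrt ρM)) ^ 2 ≤ 1 := pow_le_one₀ h8 h7
  have h10 : (60 * (h * Real.sqrt ρM)) ^ 2 = 3600 * (h ^ 2 * Real.sqrt ρM ^ 2) := by ring
  rw [h10, h6] at h9
  exact h9

theorem aux_pot (hpot : S_POT) {ρ : ℝ → ℝ} {ρm ρM lam h s x : ℝ} {j : ℕ} (hρ : Met ρ ρm ρM)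
    (hM : 0 < ρM) (hlam : 0 < lam) (hh : 0 < h) (hhM : h * (60 * (Real.sqrt ρM + 1)) ≤ 1)
    (hs : s = Real.exp j / Real.sqrt lam) (hx1 : (j : ℝ) - 1 ≤ x) :
    |(h * s) ^ 2 * pot ρ lam x| ≤ 1 / 100 := by
  obtain ⟨p1, -, -, p4⟩ := hpot ρ ρm ρM lam x hρ hlam
  rw [abs_of_nonneg (mul_nonneg (sq_nonneg _) p1)]
  have e2 : Real.exp (-2 * x) ≤ Real.exp 2 * Real.exp (-2 * j) := by
    rw [← Real.exp_add]
    refine Real.exp_le_exp.2 ?_
    linarith
  have e4 := aux_s hlam hs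
  have e5 : pot ρ lam x ≤ 4 * lam * ρM * (8 * Real.exp (-2 * j)) := by
    refine p4.trans (mul_le_mul_of_nonneg_left (e2.trans ?_) (by positivity))
    exact mul_le_mul_of_nonneg_right exp_two_le (Real.exp_pos _).le
  have e6 : (h * s) ^ 2 * pot ρ lam x ≤ 32 * (h ^ 2 * ρM) := by
    calc (h * s) ^ 2 * pot ρ lam x ≤ (h * s) ^ 2 * (4 * lam * ρM * (8 * Real.exp (-2 * j))) :=
          mul_le_mul_of_nonneg_left e5 (sq_nonneg _)
      _ = 32 * (h ^ 2 * ρM) * (s ^ 2 * lam * Real.exp (-2 * j)) := by ring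
      _ = 32 * (h ^ 2 * ρM) := by rw [e4, mul_one]
  have e7 := aux_h hM hh hhM
  linarith

theorem aux_cosh {t : ℝ} {j : ℕ} (ht1 : (j : ℝ) ≤ t) (ht2 : t ≤ j + 1) :
    Real.exp j ≤ 2 * cosh t ∧ cosh t ≤ 3 * Real.exp j := by
  have hj0 : (0 : ℝ) ≤ j := Nat.cast_nonneg _
  constructor
  · have h1 := exp_abs_le_cosh t
    have h2 : Real.exp j ≤ Real.exp |t| := Real.exp_le_exp.2 (ht1.trans (le_abs_self t))
    linarith
  · have h1 : cosh t ≤ Real.exp t := by
      rw [Real.cosh_eq]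
      have : Real.exp (-t) ≤ Real.exp t := Real.exp_le_exp.2 (by linarith)
      linarith
    have h2 : Real.exp t ≤ Real.exp (j + 1) := Real.exp_le_exp.2 ht2
    rw [Real.exp_add] at h2
    have h3 := Real.exp_one_lt_d9
    have h4 := Real.exp_pos (j : ℝ)
    nlinarith

theorem aux_C {β C ρM : ℝ} (hβ : 0 < β) (hM : 0 < ρM) (hβC : β * (20 * (Real.sqrt ρM + 1)) ≤ C) :
    16 * β * Real.sqrt ρM < C := by
  have hrM : 0 < Real.sqrt ρM := Real.sqrt_pos.2 hM
  have : 0 < β * Real.sqrt ρM := by positivity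
  linarith

/-- The doubling index of a disc in a good slab. -/
theorem good_disc (hbin : S_BIN) (hdin : S_DIN) (hdoub : S_DOUB) (hpot : S_POT) {K : ℝ} (hK : 0 < K)
    (HCH : ∀ (q : ℝ → ℝ) (K' : ℕ) (φ φx φxx φy φyy : ℝ → ℝ → ℝ)
      (Z : ℝ), Cyl q K' φ φx φxx φy φyy → Cnt φ Z → ∀ (r w X Y κ : ℝ) (N : ℕ), 0 < r →
      (∀ x, X - (N + 5) * r ≤ x → |r ^ 2 * q x| ≤ 1 / 100) → (N + 2) * r ≤ w →
      (∀ x y, |x - X| ≤ r → |y - Y| ≤ r → |φ x y| ≤ κ) →
      ∀ a b, |a - X| ≤ N * r → |b - Y| ≤ N * r →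
        |φ a b| ≤ κ * Real.exp (N * (K * (1 + zz φ w X Y / r))))
    {ρ : ℝ → ℝ} {ρm ρM C β h s lam : ℝ} {N K' j : ℕ} {φ : E3 → ℝ} {Z : ℝ} (hC : 0 < C)
    (hβ : 0 < β) (hβ2 : β ≤ 1 / 2) (hβC : β * (20 * (Real.sqrt ρM + 1)) ≤ C) (hh : 0 < h)
    (hhβ : h ≤ β) (hhM : h * (60 * (Real.sqrt ρM + 1)) ≤ 1)
    (hN : 18 * C / Real.sqrt ρm + β ≤ N * h) (hs : s = Real.exp j / Real.sqrt lam)
    (hs1 : s ≤ 1) (hs2 : 12 * C * s ≤ Real.sqrt ρm) (hs3 : (β + (N + 5) * h) * s ≤ 1)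
    (hρ : Met ρ ρm ρM) (hφ : Eigen ρ lam φ) {φx φxx φy φyy : ℝ → ℝ → ℝ}
    (hcyl : Cyl (pot ρ lam) K' (fun t θ => φ (merc t θ)) φx φxx φy φyy)
    (hcnt : Cnt (fun t θ => φ (merc t θ)) Z) {t θ X Y : ℝ} (ht1 : (j : ℝ) ≤ t) (ht2 : t ≤ j + 1)
    (hX : |X - t| ≤ β * s) (hY : |Y - θ| ≤ β * s) :
    doubling ρ φ (merc t θ) (C / Real.sqrt lam) ≤
      N * K / Real.log 2 * (1 + zz (fun t θ => φ (merc t θ)) ((N + 2) * (h * s)) X Y / (h * s)) := by
  have hlam := hφ.pos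
  have hsl : 0 < Real.sqrt lam := Real.sqrt_pos.2 hlam
  have hm := hρ.pos
  have hM : 0 < ρM := hm.trans_le ((hρ.lo 0).trans (hρ.hi 0))
  have hrm : 0 < Real.sqrt ρm := Real.sqrt_pos.2 hm
  have hrM : 0 < Real.sqrt ρM := Real.sqrt_pos.2 hM
  have hs0 : 0 < s := by
    rw [hs]
    positivity
  have hr : 0 < h * s := by positivity
  have hN0 : (0 : ℝ) ≤ N := Nat.cast_nonneg _
  have hj0 : (0 : ℝ) ≤ j := Nat.cast_nonneg _
  have hw0 : 0 ≤ ((N : ℝ) + 2) * (h * s) := by positivity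
  have hzz := zz_nonneg (fun t θ => φ (merc t θ)) hw0 X Y
  have hsC : C / Real.sqrt lam * Real.exp j = C * s := by
    rw [hs]
    ring
  obtain ⟨hcosh1, hcosh2⟩ := aux_cosh ht1 ht2
  have hCs : 0 < C * s := by positivity
  have e2C := aux_C hβ hM hβC
  have hCl : 0 < C / Real.sqrt lam := by positivity
  have key := hdoub ρ φ (merc t θ) (C / Real.sqrt lam)
    (N * (K * (1 + zz (fun t θ => φ (merc t θ)) ((N + 2) * (h * s)) X Y / (h * s)))) hφ.cont
    (by positivity) (by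
      intro κ hκ q hq
      have hrc : 2 * (C / Real.sqrt lam) * cosh t ≤ 6 * C * s := by
        have h1 := mul_le_mul_of_nonneg_left hcosh2 hCl.le
        linarith
      obtain ⟨t', θ', rfl, h1, h2⟩ := hdin ρ ρm ρM hρ t θ (2 * (C / Real.sqrt lam))
        (by linarith) q hq
      have h3 : |t' - t| ≤ 18 * C / Real.sqrt ρm * s := by
        rw [div_mul_eq_mul_div, le_div_iff₀ hrm]
        linarith
      have h4 : |θ' - θ| ≤ 18 * C / Real.sqrt ρm * s := by
        rw [div_mul_eq_mul_div, le_div_iff₀ hrm]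
        linarith
      have h5 : (18 * C / Real.sqrt ρm + β) * s ≤ N * (h * s) := by
        have := mul_le_mul_of_nonneg_right hN hs0.le
        linarith
      refine HCH (pot ρ lam) K' (fun t θ => φ (merc t θ)) φx φxx φy φyy Z hcyl hcnt (h * s)
        ((N + 2) * (h * s)) X Y κ N hr ?_ le_rfl ?_ t' θ' ?_ ?_
      · intro x hx
        have hx' := (abs_le.1 hX).1
        have hx1 : (j : ℝ) - 1 ≤ x := by
          have e1 : (β + (N + 5) * h) * s = β * s + (N + 5) * (h * s) := by ring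
          rw [e1] at hs3
          linarith
        exact aux_pot hpot hρ hM hlam hh hhM hs hx1
      · intro x y hx hy
        have hδ : 0 ≤ 2 * β * s := by positivity
        have hδ1 : β * s ≤ 1 / 2 * 1 := mul_le_mul hβ2 hs1 hs0.le (by norm_num)
        refine hκ _ (hbin ρ ρm ρM hρ t θ x y (2 * β * s) (C / Real.sqrt lam) hδ (by linarith)
          ?_ ?_ ?_)
        · have e1 : |x - t| ≤ |x - X| + |X - t| := abs_sub_le _ _ _
          have e2 : h * s ≤ β * s := mul_le_mul_of_nonneg_right hhβ hs0.le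
          linarith
        · have e1 : |y - θ| ≤ |y - Y| + |Y - θ| := abs_sub_le _ _ _
          have e2 : h * s ≤ β * s := mul_le_mul_of_nonneg_right hhβ hs0.le
          linarith
        · have e1 : C * s ≤ 2 * (C / Real.sqrt lam * cosh t) := by
            rw [← hsC]
            have := mul_le_mul_of_nonneg_left hcosh1 hCl.le
            linarith
          have e3 : 16 * β * Real.sqrt ρM * s < C * s := mul_lt_mul_of_pos_right e2C hs0
          linarith
      · have e1 : |t' - X| ≤ |t' - t| + |t - X| := abs_sub_le _ _ _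
        rw [abs_sub_comm t X] at e1
        linarith
      · have e1 : |θ' - Y| ≤ |θ' - θ| + |θ - Y| := abs_sub_le _ _ _
        rw [abs_sub_comm θ Y] at e1
        linarith)
  refine key.trans (le_of_eq ?_)
  ring

/-- The arithmetic of the conclusion. -/
theorem concl {Sd C₁ E' β h s N Z Z₀ lam ρM x : ℝ} (hC1 : 0 < C₁) (hE'0 : 0 ≤ E') (hβ : 0 < β)
    (hh : 0 < h) (hs0 : 0 < s) (hN0 : 0 ≤ N) (hZ₀ : 0 < Z₀) (hlam : 0 < lam) (hM : 0 < ρM)
    (hx0 : 0 < x) (hx1 : x ≤ 1) (hsx : s * (Real.sqrt lam * x) = 1)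
    (hZ : Z = Z₀ * (1 + Real.sqrt (4 * lam * ρM)))
    (key : Sd * (2 * (β * s)) ^ 2 ≤ C₁ * E' * (3 * (2 * π + 2) + 4 * ((N + 2) * (h * s)) ^ 2 /
      (h * s) * (3 * (Z * (1 + (2 * π + 6))) + (2 * π + 2) * Z))) :
    Sd ≤ (C₁ * E' * (3 * (2 * π + 2)) / (4 * β ^ 2) + C₁ * E' * ((N + 2) ^ 2 * h *
      (3 * (1 + (2 * π + 6)) + (2 * π + 2)) * Z₀ * (1 + 2 * Real.sqrt ρM)) / β ^ 2 + 1) * x *
      (1 + lam) := by
  have hπ := Real.pi_pos
  have hsl : 0 < Real.sqrt lam := Real.sqrt_pos.2 hlam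
  have hrM : 0 < Real.sqrt ρM := Real.sqrt_pos.2 hM
  have hrM2 : Real.sqrt (4 * lam * ρM) = 2 * Real.sqrt lam * Real.sqrt ρM := by
    rw [show 4 * lam * ρM = (2 * Real.sqrt lam * Real.sqrt ρM) ^ 2 by
      rw [mul_pow, mul_pow, Real.sq_sqrt hlam.le, Real.sq_sqrt hM.le]
      ring]
    exact Real.sqrt_sq (by positivity)
  have hq : Real.sqrt lam ^ 2 = lam := Real.sq_sqrt hlam.le
  set q := Real.sqrt lam with hqdef
  set rM := Real.sqrt ρM with hrMdef
  set c : ℝ := 3 * (1 + (2 * π + 6)) + (2 * π + 2) with hc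
  have hc0 : 0 < c := by positivity
  have e1 : 4 * ((N + 2) * (h * s)) ^ 2 / (h * s) = 4 * (N + 2) ^ 2 * h * s := by
    field_simp
  have e2 : 3 * (Z * (1 + (2 * π + 6))) + (2 * π + 2) * Z = c * Z := by
    rw [hc]
    ring
  rw [e1, e2] at key
  have e3 : Z = Z₀ * (1 + 2 * q * rM) := by rw [hZ, hrM2]
  have h5 : Sd * (4 * β ^ 2) ≤ (C₁ * E' * (3 * (2 * π + 2))) * (q * x) ^ 2 +
      C₁ * E' * (4 * (N + 2) ^ 2 * h * c * Z) * (q * x) := by
    have h6 : Sd * (2 * (β * s)) ^ 2 * (q * x) ^ 2 = Sd * (4 * β ^ 2) * (s * (q * x)) ^ 2 := by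
      ring
    have h7 := mul_le_mul_of_nonneg_right key (sq_nonneg (q * x))
    rw [h6, hsx, one_pow, mul_one] at h7
    refine h7.trans (le_of_eq ?_)
    have h8 : C₁ * E' * (3 * (2 * π + 2) + 4 * (N + 2) ^ 2 * h * s * (c * Z)) * (q * x) ^ 2 =
        (C₁ * E' * (3 * (2 * π + 2))) * (q * x) ^ 2 +
        C₁ * E' * (4 * (N + 2) ^ 2 * h * c * Z) * (q * x) * (s * (q * x)) := by ring
    rw [h8, hsx, mul_one]
  have hβ0 : 0 < β ^ 2 := by positivity
  have h9 : (q * x) ^ 2 ≤ x * (1 + lam) := by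
    have e : (q * x) ^ 2 = lam * x * x := by
      rw [mul_pow, hq]
      ring
    rw [e]
    have e' : lam * x * x ≤ lam * x * 1 := mul_le_mul_of_nonneg_left hx1 (by positivity)
    linarith
  have e5 : q ≤ 1 + lam := by
    rw [← hq]
    linarith [sq_nonneg (q - 1), sq_nonneg q, sq_nonneg (q - 1 / 2)]
  have h10 : (1 + 2 * q * rM) * (q * x) ≤ (1 + 2 * rM) * (x * (1 + lam)) := by
    have e4 : (1 + 2 * q * rM) * (q * x) = x * (q + 2 * rM * q ^ 2) := by ring
    rw [e4, hq]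
    have e6 : q + 2 * rM * lam ≤ (1 + 2 * rM) * (1 + lam) := by
      have : 0 < rM := hrM
      linarith
    calc x * (q + 2 * rM * lam) ≤ x * ((1 + 2 * rM) * (1 + lam)) :=
          mul_le_mul_of_nonneg_left e6 hx0.le
      _ = _ := by ring
  set A₂ : ℝ := C₁ * E' * (3 * (2 * π + 2)) / (4 * β ^ 2) with hA₂
  set A₃ : ℝ := C₁ * E' * ((N + 2) ^ 2 * h * c * Z₀ * (1 + 2 * rM)) / β ^ 2 with hA₃
  have h11 : Sd ≤ (A₂ + A₃) * (x * (1 + lam)) := by
    have e7 : (A₂ + A₃) * (x * (1 + lam)) * (4 * β ^ 2) =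
        (C₁ * E' * (3 * (2 * π + 2))) * (x * (1 + lam)) +
        C₁ * E' * (4 * (N + 2) ^ 2 * h * c * Z₀) * ((1 + 2 * rM) * (x * (1 + lam))) := by
      rw [hA₂, hA₃]
      field_simp
    have e8 : Sd * (4 * β ^ 2) ≤ (A₂ + A₃) * (x * (1 + lam)) * (4 * β ^ 2) := by
      rw [e7]
      refine h5.trans (add_le_add (mul_le_mul_of_nonneg_left h9 (by positivity)) ?_)
      rw [e3]
      have e9 : C₁ * E' * (4 * (N + 2) ^ 2 * h * c * (Z₀ * (1 + 2 * q * rM))) * (q * x) =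
          C₁ * E' * (4 * (N + 2) ^ 2 * h * c * Z₀) * ((1 + 2 * q * rM) * (q * x)) := by
        ring
      rw [e9]
      exact mul_le_mul_of_nonneg_left h10 (by positivity)
    exact le_of_mul_le_mul_right e8 (by positivity)
  refine h11.trans ?_
  have h12 : 0 ≤ x * (1 + lam) := by positivity
  calc (A₂ + A₃) * (x * (1 + lam)) ≤ (A₂ + A₃) * (x * (1 + lam)) + x * (1 + lam) := by linarith
    _ = _ := by ring

/-- The discs in a slab which is not close to the north pole. -/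
theorem GOOD (hco : S_COORD) (hbin : S_BIN) (hdin : S_DIN) (hdoub : S_DOUB) (hpot : S_POT)
    (hce : S_CE) (hchain : S_CHAIN) (hslab : S_SLAB) : S_GOOD := by
  intro ρm ρM C C₁ hm hM hC hC1
  obtain ⟨Z₀, hZ₀, HCE⟩ := hce
  obtain ⟨K, hK, HCH⟩ := hchain
  have hπ := Real.pi_pos
  have hlog : 0 < Real.log 2 := Real.log_pos one_lt_two
  have hrm : 0 < Real.sqrt ρm := Real.sqrt_pos.2 hm
  have hrM : 0 < Real.sqrt ρM := Real.sqrt_pos.2 hM
  set β : ℝ := min (1 / 2) (C / (20 * (Real.sqrt ρM + 1))) with hβdef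
  have hβ : 0 < β := lt_min (by norm_num) (by positivity)
  have hβ2 : β ≤ 1 / 2 := min_le_left _ _
  have hβC : β * (20 * (Real.sqrt ρM + 1)) ≤ C := by
    have := min_le_right (1 / 2) (C / (20 * (Real.sqrt ρM + 1)))
    rwa [le_div_iff₀ (by positivity)] at this
  set h : ℝ := min β (1 / (60 * (Real.sqrt ρM + 1))) with hhdef
  have hh : 0 < h := lt_min hβ (by positivity)
  have hhβ : h ≤ β := min_le_left _ _
  have hhM : h * (60 * (Real.sqrt ρM + 1)) ≤ 1 := by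
    have := min_le_right β (1 / (60 * (Real.sqrt ρM + 1)))
    rwa [le_div_iff₀ (by positivity)] at this
  set N : ℕ := ⌈(18 * C / Real.sqrt ρm + β) / h⌉₊ with hNdef
  have hN : 18 * C / Real.sqrt ρm + β ≤ N * h := by
    have := Nat.le_ceil ((18 * C / Real.sqrt ρm + β) / h)
    rwa [div_le_iff₀ hh] at this
  have hN0 : (0 : ℝ) ≤ N := Nat.cast_nonneg _
  have hB : 0 < β + (N + 5) * h := by positivity
  set ε : ℝ := min 1 (min (Real.sqrt ρm / (12 * C)) (1 / (β + (N + 5) * h))) with hεdef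
  have hε : 0 < ε := lt_min one_pos (lt_min (by positivity) (by positivity))
  set E' : ℝ := N * K / Real.log 2 with hE'
  have hE'0 : 0 ≤ E' := by positivity
  refine ⟨ε, C₁ * E' * (3 * (2 * π + 2)) / (4 * β ^ 2) + C₁ * E' * ((N + 2) ^ 2 * h *
      (3 * (1 + (2 * π + 6)) + (2 * π + 2)) * Z₀ * (1 + 2 * Real.sqrt ρM)) / β ^ 2 + 1, hε,
      by positivity, ?_⟩
  intro ρ lam φ hρ hφ j ι _ t θ hj ht hθ hmult
  have hlam := hφ.pos
  have hsl : 0 < Real.sqrt lam := Real.sqrt_pos.2 hlam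
  obtain ⟨K', φx, φxx, φy, φyy, -, hcyl, hcnt⟩ := HCE ρ ρm ρM lam φ hρ hφ
  set Z : ℝ := Z₀ * (1 + Real.sqrt (4 * lam * ρM)) with hZ
  have hZ0 : 0 ≤ Z := by positivity
  set s : ℝ := Real.exp j / Real.sqrt lam with hs
  have hs0 : 0 < s := by positivity
  have hsε : s ≤ ε := by
    rw [hs, div_le_iff₀ hsl]
    exact hj
  have hs1 : s ≤ 1 := hsε.trans (min_le_left _ _)
  have hs2 : 12 * C * s ≤ Real.sqrt ρm := by
    have := hsε.trans ((min_le_right _ _).trans (min_le_left _ _))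
    rw [le_div_iff₀ (by positivity)] at this
    linarith
  have hs3 : (β + (N + 5) * h) * s ≤ 1 := by
    have := hsε.trans ((min_le_right _ _).trans (min_le_right _ _))
    rw [le_div_iff₀ hB] at this
    linarith
  have hcont : Continuous (Function.uncurry fun t θ : ℝ => φ (merc t θ)) := hφ.smooth.continuous
  have hw1 : (N + 2) * (h * s) ≤ 1 := by
    have e1 : (β + (N + 5) * h) * s = β * s + (N + 2) * (h * s) + 3 * (h * s) := by ring
    have e2 : 0 < β * s := by positivity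
    have e3 : 0 < h * s := by positivity
    linarith
  have hb1 : β * s ≤ 1 := by
    have : β * s ≤ 1 / 2 * 1 := mul_le_mul hβ2 hs1 hs0.le (by norm_num)
    linarith
  have hcosh1 : ∀ i, Real.exp j ≤ 2 * cosh (t i) := fun i =>
    (aux_cosh (ht i).1 (ht i).2).1
  have hCl : 0 < C / Real.sqrt lam := by positivity
  have hsC : C / Real.sqrt lam * Real.exp j = C * s := by
    rw [hs]
    ring
  have key := hslab (fun t θ => φ (merc t θ)) Z hcont hcnt j E' (h * s) (β * s)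
    ((N + 2) * (h * s)) C₁ ι (fun i => (t i, θ i))
    (fun i => max (doubling ρ φ (merc (t i) (θ i)) (C / Real.sqrt lam)) 0) hE'0 (by positivity)
    (by positivity) hb1 (by positivity) hw1 ht hθ (fun i => le_max_right _ _)
    (by
      intro i x y hx hy
      have hzz := zz_nonneg (fun t θ => φ (merc t θ))
        (show (0 : ℝ) ≤ (N + 2) * (h * s) by positivity) x y
      refine max_le ?_ (by positivity)
      exact good_disc hbin hdin hdoub hpot hK HCH hC hβ hβ2 hβC hh hhβ hhM hN hs hs1 hs2 hs3 hρ hφ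
        hcyl hcnt (ht i).1 (ht i).2 hx hy)
    (by
      intro x y
      refine le_trans ?_ (hmult (merc x y) (hco.1 x y).1)
      have h6 : {i | |x - t i| ≤ β * s ∧ |y - θ i| ≤ β * s} ⊆
          {i | merc x y ∈ disc ρ (merc (t i) (θ i)) (C / Real.sqrt lam)} := by
        intro i hi
        refine hbin ρ ρm ρM hρ (t i) (θ i) x y (β * s) (C / Real.sqrt lam) (by positivity) hb1
          hi.1 hi.2 ?_
        have e1 : C * s ≤ 2 * (C / Real.sqrt lam * cosh (t i)) := by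
          rw [← hsC]
          have := mul_le_mul_of_nonneg_left (hcosh1 i) hCl.le
          linarith
        have e3 : 16 * β * Real.sqrt ρM * s < C * s :=
          mul_lt_mul_of_pos_right (aux_C hβ hM hβC) hs0
        have e4 : 0 < β * Real.sqrt ρM * s := by positivity
        linarith
      have h7 := Set.ncard_le_ncard h6 (Set.toFinite _)
      exact_mod_cast h7)
  have hx1 : Real.exp (-(j : ℝ)) ≤ 1 := Real.exp_le_one_iff.2 (by
    have : (0 : ℝ) ≤ j := Nat.cast_nonneg _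
    linarith)
  have hsx : s * (Real.sqrt lam * Real.exp (-(j : ℝ))) = 1 := by
    have : Real.exp j * Real.exp (-(j : ℝ)) = 1 := by
      rw [← Real.exp_add]
      norm_num
    rw [hs]
    field_simp
    exact this
  exact concl hC1 hE'0 hβ hh hs0 hN0 hZ₀ hlam hM (Real.exp_pos _) hx1 hsx hZ key

end Pool.Agent.N295.SR
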