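import Pool.Agent.N295.SR.Stm3

/-!
# Spheres of revolution: the potential, the doubling index, the reflection (helper295)
-/

set_option autoImplicit false

open MeasureTheory Set Real Filter Topology

namespace Pool.Agent.N295.SR

theorem exp_abs_le_cosh (t : ℝ) : Real.exp |t| ≤ 2 * cosh t := by
  rw [← Real.cosh_abs t, Real.cosh_eq]
  have := Real.exp_pos (-|t|)
  linarith

/-- The potential. -/
theorem POT : S_POT := by
  intro ρ ρm ρM lam t h hlam
  have hρ := h.lo (tanh t)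
  have hρ' := h.hi (tanh t)
  have hm := h.pos
  have hM : 0 < ρM := by linarith
  have hc : 1 ≤ cosh t := Real.one_le_cosh t
  have hc2 : 1 ≤ cosh t ^ 2 := by nlinarith
  have hc0 : 0 < cosh t ^ 2 := by linarith
  have h0 : 0 ≤ pot ρ lam t := by
    unfold pot
    have : 0 ≤ ρ (tanh t) := by linarith
    positivity
  have h1 : pot ρ lam t * cosh t ^ 2 ≤ lam * ρM := by
    unfold pot
    have e : lam * (ρ (tanh t) / cosh t ^ 2) * cosh t ^ 2 = lam * ρ (tanh t) := by
      field_simp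
    rw [e]
    exact mul_le_mul_of_nonneg_left hρ' hlam.le
  have h2 : pot ρ lam t ≤ lam * ρM := by
    nlinarith
  have h3 : pot ρ lam t ≤ 4 * lam * ρM * Real.exp (-2 * |t|) := by
    have e1 := exp_abs_le_cosh t
    have e2 := Real.exp_pos |t|
    have e3 : Real.exp |t| ^ 2 ≤ 4 * cosh t ^ 2 := by nlinarith
    have e4 : Real.exp (-2 * |t|) * Real.exp |t| ^ 2 = 1 := by
      rw [← Real.exp_nat_mul, ← Real.exp_add]
      norm_num
    have e5 := Real.exp_pos (-2 * |t|)
    have e6 : pot ρ lam t * Real.exp |t| ^ 2 ≤ 4 * (lam * ρM) := by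
      nlinarith [mul_le_mul_of_nonneg_left e3 h0]
    have e7 := mul_le_mul_of_nonneg_right e6 e5.le
    have e8 : pot ρ lam t * Real.exp |t| ^ 2 * Real.exp (-2 * |t|) = pot ρ lam t := by
      rw [mul_assoc, mul_comm (Real.exp |t| ^ 2), e4, mul_one]
    rw [e8] at e7
    linarith
  refine ⟨h0, h2, h3, h3.trans ?_⟩
  have : Real.exp (-2 * |t|) ≤ Real.exp (-2 * t) := by
    refine Real.exp_le_exp.2 ?_
    have := le_abs_self t
    linarith
  have h4 : 0 ≤ 4 * lam * ρM := by positivity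
  exact mul_le_mul_of_nonneg_left this h4

/-- The doubling index. -/
theorem DOUB : S_DOUB := by
  intro ρ φ p r E hφ hE h
  have hlog : 0 < Real.log 2 := Real.log_pos one_lt_two
  obtain ⟨B, hB⟩ := (isCompact_sphere (0 : E3) 1).exists_bound_of_continuousOn hφ
  have hB' : ∀ q : E3, ‖q‖ = 1 → |φ q| ≤ B := fun q hq => hB q (by simpa using hq)
  have hbdd : ∀ r, BddAbove ((fun q => |φ q|) '' disc ρ p r) := by
    intro r
    refine ⟨B, ?_⟩
    rintro _ ⟨q, hq, rfl⟩
    exact hB' q hq.1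
  set S := sSup ((fun q => |φ q|) '' disc ρ p r) with hS
  set T := sSup ((fun q => |φ q|) '' disc ρ p (2 * r)) with hT
  have hS0 : 0 ≤ S := Real.sSup_nonneg (by rintro _ ⟨q, _, rfl⟩; exact abs_nonneg _)
  have hT0 : 0 ≤ T := Real.sSup_nonneg (by rintro _ ⟨q, _, rfl⟩; exact abs_nonneg _)
  have hd : doubling ρ φ p r = Real.logb 2 (T / S) := rfl
  have h1 : ∀ q ∈ disc ρ p r, |φ q| ≤ S := fun q hq => le_csSup (hbdd r) ⟨q, hq, rfl⟩
  have h2 : T ≤ S * Real.exp E := by
    refine Real.sSup_le ?_ (by positivity)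
    rintro _ ⟨q, hq, rfl⟩
    exact h S h1 q hq
  rw [hd]
  rcases eq_or_lt_of_le (div_nonneg hT0 hS0) with h3 | h3
  · rw [← h3, Real.logb_zero]
    positivity
  · have hS1 : 0 < S := by
      refine lt_of_le_of_ne hS0 fun h0 => ?_
      rw [← h0, div_zero] at h3
      exact lt_irrefl _ h3
    have h4 : T / S ≤ Real.exp E := by
      rw [div_le_iff₀ hS1]
      linarith
    rw [Real.logb, div_le_div_iff_of_pos_right hlog, Real.log_le_iff_le_exp h3]
    exact h4

/-- Eigenfunctions and their numbers of sign changes. -/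
theorem CE (h1 : S_CYLE) (h2 : S_CNT) : S_CE := by
  obtain ⟨Z₀, hZ₀, H⟩ := h2
  refine ⟨Z₀, hZ₀, ?_⟩
  intro ρ ρm ρM lam φ hρ hφ
  obtain ⟨K, φx, φxx, φy, φyy, hK, hC, h0, h3, h4⟩ := h1 ρ ρM lam φ hρ.c
    (fun z => hρ.pos.trans_le (hρ.lo z)) hρ.hi hφ
  have hM : 0 < ρM := hρ.pos.trans_le ((hρ.lo 0).trans (hρ.hi 0))
  have hlam := hφ.pos
  exact ⟨K, φx, φxx, φy, φyy, hK, hC, H (4 * lam * ρM) _ K _ φx φxx φy φyy (by positivity) hC h0
    h3 hK⟩

/-- The reflection of an eigenfunction. -/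
theorem ER (hnp : S_NP) {ρ : ℝ → ℝ} {lam : ℝ} {φ : E3 → ℝ} (h : Eigen ρ lam φ) :
    Eigen (fun z => ρ (-z)) lam (fun p => φ (refl p)) := by
  obtain ⟨-, -, -, -, hm, hrr, hn, -, hc⟩ := hnp
  refine ⟨h.pos, ?_, ?_, ?_, ?_⟩
  · refine h.cont.comp hc.continuousOn ?_
    intro p hp
    simp only [mem_sphere_iff_norm, sub_zero] at hp ⊢
    rw [hn, hp]
  · obtain ⟨p, hp, hp'⟩ := h.ne
    exact ⟨refl p, by rw [hn, hp], by rw [hrr]; exact hp'⟩
  · have e : (fun z : ℝ × ℝ => φ (refl (merc z.1 z.2))) =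
        (fun z : ℝ × ℝ => φ (merc z.1 z.2)) ∘ fun z : ℝ × ℝ => (-z.1, z.2) := by
      funext z
      simp only [Function.comp_apply, hm]
    rw [e]
    exact h.smooth.comp (by fun_prop)
  · intro t θ
    have h1 := h.eq (-t) θ
    have e1 : (fun t => φ (refl (merc t θ))) = fun t => (fun t => φ (merc t θ)) (-t) := by
      funext t
      simp only [hm]
    have e2 : (fun θ => φ (refl (merc t θ))) = fun θ => φ (merc (-t) θ) := by
      funext θ
      simp only [hm]
    have e4 : iteratedDeriv 2 (fun t => (fun t => φ (merc t θ)) (-t)) t =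
        iteratedDeriv 2 (fun t => φ (merc t θ)) (-t) := by
      have := iteratedDeriv_comp_neg 2 (fun t => φ (merc t θ)) t
      rw [this]
      simp
    rw [e1, e2, e4, hm]
    have e3 : pot (fun z => ρ (-z)) lam t = pot ρ lam (-t) := by
      unfold pot
      rw [Real.cosh_neg, Real.tanh_neg]
    rw [e3]
    exact h1

end Pool.Agent.N295.SR
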