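import Pool.Agent.N295.SR.Stm2

/-!
# Spheres of revolution: the statements of the assembly (helper295)
-/

set_option autoImplicit false

open MeasureTheory Set Real Filter Topology

namespace Pool.Agent.N295.SR

open Pool.Agent.N273.LT (Alt sc)

/-- A metric of revolution with bounds of its density. -/
structure Met (ρ : ℝ → ℝ) (ρm ρM : ℝ) : Prop where
  c : Continuous ρ
  pos : 0 < ρm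
  lo : ∀ z, ρm ≤ ρ z
  hi : ∀ z, ρ z ≤ ρM

/-- The north pole. -/
noncomputable def np : E3 := !₂[0, 0, 1]

/-- Boxes in Mercator coordinates are contained in discs. -/
def S_BIN : Prop := ∀ (ρ : ℝ → ℝ) (ρm ρM : ℝ), Met ρ ρm ρM → ∀ t θ t' θ' δ r : ℝ, 0 ≤ δ → δ ≤ 1 →
  |t' - t| ≤ δ → |θ' - θ| ≤ δ → 4 * δ * Real.sqrt ρM < r * cosh t →
  merc t' θ' ∈ disc ρ (merc t θ) r

/-- Discs are contained in boxes. -/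
def S_DIN : Prop := ∀ (ρ : ℝ → ℝ) (ρm ρM : ℝ), Met ρ ρm ρM → ∀ t θ r : ℝ,
  r * cosh t ≤ Real.sqrt ρm / 2 → ∀ q ∈ disc ρ (merc t θ) r, ∃ t' θ' : ℝ, q = merc t' θ' ∧
    |t' - t| * Real.sqrt ρm ≤ 2 * (r * cosh t) ∧ |θ' - θ| * Real.sqrt ρm ≤ 3 * (r * cosh t)

/-- The north pole and the coordinates. -/
def S_NP : Prop := (∀ t θ : ℝ, ‖merc t θ - np‖ ^ 2 = 4 / (Real.exp (2 * t) + 1)) ∧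
  (∀ t θ : ℝ, merc t (θ + 2 * π) = merc t θ) ∧
  (∀ p : E3, ‖p‖ = 1 → p = np ∨ p = refl np ∨ ∃ t θ : ℝ, 0 ≤ θ ∧ θ < 2 * π ∧ p = merc t θ) ∧
  (∀ θ : ℝ, Tendsto (fun t => merc t θ) atTop (𝓝 np)) ∧
  (∀ t θ : ℝ, refl (merc t θ) = merc (-t) θ) ∧ (∀ p : E3, refl (refl p) = p) ∧
  (∀ p : E3, ‖refl p‖ = ‖p‖) ∧ ‖np‖ = 1 ∧ Continuous refl

/-- A bound of the doubling index. -/
def S_DOUB : Prop := ∀ (ρ : ℝ → ℝ) (φ : E3 → ℝ) (p : E3) (r E : ℝ),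
  ContinuousOn φ (Metric.sphere 0 1) → 0 ≤ E →
  (∀ κ : ℝ, (∀ q ∈ disc ρ p r, |φ q| ≤ κ) → ∀ q ∈ disc ρ p (2 * r), |φ q| ≤ κ * Real.exp E) →
  doubling ρ φ p r ≤ E / Real.log 2

/-- The potential. -/
def S_POT : Prop := ∀ (ρ : ℝ → ℝ) (ρm ρM lam t : ℝ), Met ρ ρm ρM → 0 < lam →
  0 ≤ pot ρ lam t ∧ pot ρ lam t ≤ lam * ρM ∧ pot ρ lam t ≤ 4 * lam * ρM * Real.exp (-2 * |t|) ∧
  pot ρ lam t ≤ 4 * lam * ρM * Real.exp (-2 * t)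

/-- An eigenfunction in Mercator coordinates. -/
def S_CYLE : Prop := ∀ (ρ : ℝ → ℝ) (ρM lam : ℝ) (φ : E3 → ℝ), Continuous ρ → (∀ z, 0 < ρ z) →
  (∀ z, ρ z ≤ ρM) → Eigen ρ lam φ → ∃ (K : ℕ) (φx φxx φy φyy : ℝ → ℝ → ℝ),
  (K : ℝ) ≤ Real.sqrt (4 * lam * ρM) ∧
  Cyl (pot ρ lam) K (fun t θ => φ (merc t θ)) φx φxx φy φyy ∧ (∀ t, 0 ≤ pot ρ lam t) ∧
  (∀ t, pot ρ lam t ≤ 4 * lam * ρM * Real.exp (-2 * |t|)) ∧ ∀ t, pot ρ lam t ≤ lam * ρM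

/-- An eigenfunction in Mercator coordinates and its numbers of sign changes. -/
def S_CE : Prop := ∃ Z₀ : ℝ, 0 < Z₀ ∧ ∀ (ρ : ℝ → ℝ) (ρm ρM lam : ℝ) (φ : E3 → ℝ), Met ρ ρm ρM →
  Eigen ρ lam φ → ∃ (K : ℕ) (φx φxx φy φyy : ℝ → ℝ → ℝ), (K : ℝ) ≤ Real.sqrt (4 * lam * ρM) ∧
  Cyl (pot ρ lam) K (fun t θ => φ (merc t θ)) φx φxx φy φyy ∧
  Cnt (fun t θ => φ (merc t θ)) (Z₀ * (1 + Real.sqrt (4 * lam * ρM)))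

/-- The discs in a slab which is not close to the north pole. -/
def S_GOOD : Prop := ∀ ρm ρM C C₁ : ℝ, 0 < ρm → 0 < ρM → 0 < C → 0 < C₁ → ∃ ε A : ℝ, 0 < ε ∧
  0 < A ∧ ∀ (ρ : ℝ → ℝ) (lam : ℝ) (φ : E3 → ℝ), Met ρ ρm ρM → Eigen ρ lam φ →
  ∀ (j : ℕ) (ι : Type) [Fintype ι] (t θ : ι → ℝ), Real.exp j ≤ ε * Real.sqrt lam →
  (∀ i, (j : ℝ) ≤ t i ∧ t i ≤ j + 1) → (∀ i, 0 ≤ θ i ∧ θ i ≤ 2 * π) →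
  (∀ q : E3, ‖q‖ = 1 →
    ({i | q ∈ disc ρ (merc (t i) (θ i)) (C / Real.sqrt lam)}.ncard : ℝ) ≤ C₁) →
  ∑ i, max (doubling ρ φ (merc (t i) (θ i)) (C / Real.sqrt lam)) 0 ≤
    A * Real.exp (-(j : ℝ)) * (1 + lam)

/-- The discs close to the north pole. -/
def S_BADN : Prop := ∀ ρm ρM C C₁ ε : ℝ, 0 < ρm → 0 < ρM → 0 < C → 0 < C₁ → 0 < ε →
  ∃ A Λ : ℝ, 0 < A ∧ 0 < Λ ∧ ∀ (ρ : ℝ → ℝ) (lam : ℝ) (φ : E3 → ℝ), Met ρ ρm ρM →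
  Eigen ρ lam φ → Λ ≤ lam → ∀ (ι : Type) [Fintype ι] (c : ι → E3),
  (∀ i, c i = np ∨ ∃ t θ : ℝ, 0 ≤ θ ∧ θ ≤ 2 * π ∧ ε * Real.sqrt lam ≤ Real.exp t ∧
    c i = merc t θ) →
  (∀ q : E3, ‖q‖ = 1 → ({i | q ∈ disc ρ (c i) (C / Real.sqrt lam)}.ncard : ℝ) ≤ C₁) →
  ∑ i, max (doubling ρ φ (c i) (C / Real.sqrt lam)) 0 ≤ A * (1 + lam)

/-- Small eigenvalues. -/
def S_SMALL : Prop := ∀ ρm ρM C C₁ Λ : ℝ, 0 < ρm → 0 < ρM → 0 < C → 0 < C₁ → 0 < Λ →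
  ∃ A : ℝ, 0 < A ∧ ∀ (ρ : ℝ → ℝ) (lam : ℝ) (φ : E3 → ℝ), Met ρ ρm ρM →
  Eigen ρ lam φ → lam ≤ Λ → ∀ (ι : Type) [Fintype ι] (c : ι → E3), (∀ i, ‖c i‖ = 1) →
  (∀ q : E3, ‖q‖ = 1 → ({i | q ∈ disc ρ (c i) (C / Real.sqrt lam)}.ncard : ℝ) ≤ C₁) →
  ∑ i, max (doubling ρ φ (c i) (C / Real.sqrt lam)) 0 ≤ A

/-- The theorem. -/
def S_MAIN : Prop := ∀ (ρ : ℝ → ℝ), Continuous ρ → (∀ z, 0 < ρ z) → ∀ C C₁ C₂ : ℝ, 0 < C →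
  0 < C₁ → 0 < C₂ → ∃ A : ℝ, 0 < A ∧ ∀ (lam : ℝ) (φ : E3 → ℝ), Eigen ρ lam φ →
  ∀ (ι : Type) [Fintype ι] (c : ι → E3), Admissible ρ lam φ C C₁ C₂ c →
  (∑ i, doubling ρ φ (c i) (C / Real.sqrt lam)) / Fintype.card ι ≤ A

end Pool.Agent.N295.SR
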